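import Pool.Agent.Helper17K9.WP.Stm

/-! Sign averages and permutations for the expansions EXA, EXB, EXC, EXD (helper86) -/

set_option autoImplicit false

namespace Pool.Agent.Helper86K9.WP

open Pool.Agent.Helper17K9.WP

/-- sums of functions of the first four coordinates -/
noncomputable def L (Y : Finset (Fin 8 → ℤ)) (w : (Fin 8 → ℤ) → ℝ) (f : ℝ → ℝ → ℝ → ℝ → ℝ) : ℝ :=
  ∑ v ∈ Y, w v * f (v 0) (v 1) (v 2) (v 3)

theorem TT4 (Y : Finset (Fin 8 → ℤ)) (w : (Fin 8 → ℤ) → ℝ) (a b c d : ℕ) :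
    TT Y w ![a, b, c, d, 0, 0, 0, 0] = L Y w (fun x y z t => x ^ a * y ^ b * z ^ c * t ^ d) := by
  unfold TT L
  apply Finset.sum_congr rfl
  intro v _
  congr 1
  simp [Fin.prod_univ_succ]
  ring

theorem G4 (Y : Finset (Fin 8 → ℤ)) (w : (Fin 8 → ℤ) → ℝ) (k : ℕ) (a b c d : ℤ) :
    G Y w k ![a, b, c, d, 0, 0, 0, 0] = L Y w (fun x y z t => (a * x + b * y + c * z + d * t) ^ k) := by
  unfold G L
  apply Finset.sum_congr rfl
  intro v _
  congr 2
  simp [Fin.sum_univ_succ]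
  ring

theorem flip_flip (i j : Fin 8) (v : Fin 8 → ℤ) : Pool.Agent.Helper17K9.WP.flip i j (Pool.Agent.Helper17K9.WP.flip i j v) = v := by
  funext l
  unfold Pool.Agent.Helper17K9.WP.flip
  split_ifs <;> simp

theorem sum_flip {N : ℤ} {Y : Finset (Fin 8 → ℤ)} {w : (Fin 8 → ℤ) → ℝ} (hw : WInv N Y w)
    {i j : Fin 8} (hij : i ≠ j) (g : (Fin 8 → ℤ) → ℝ) :
    ∑ v ∈ Y, w v * g v = ∑ v ∈ Y, w v * g (Pool.Agent.Helper17K9.WP.flip i j v) := by
  refine Finset.sum_nbij' (Pool.Agent.Helper17K9.WP.flip i j) (Pool.Agent.Helper17K9.WP.flip i j) (fun v hv => (hw.2.1 v hv i j hij).1)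
    (fun v hv => (hw.2.1 v hv i j hij).1) (fun v _ => flip_flip i j v) (fun v _ => flip_flip i j v) ?_
  intro v hv
  rw [(hw.2.1 v hv i j hij).2, flip_flip]

variable {N : ℤ} {Y : Finset (Fin 8 → ℤ)} {w : (Fin 8 → ℤ) → ℝ}

theorem L1 (hw : WInv N Y w) (f : ℝ → ℝ → ℝ → ℝ → ℝ) :
    L Y w f = L Y w (fun a b c d => f a (-b) c d) := by
  unfold L
  rw [sum_flip hw (show (1 : Fin 8) ≠ 7 by decide)]
  apply Finset.sum_congr rfl
  intro v _
  simp [Pool.Agent.Helper17K9.WP.flip]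

theorem L2 (hw : WInv N Y w) (f : ℝ → ℝ → ℝ → ℝ → ℝ) :
    L Y w f = L Y w (fun a b c d => f a b (-c) d) := by
  unfold L
  rw [sum_flip hw (show (2 : Fin 8) ≠ 7 by decide)]
  apply Finset.sum_congr rfl
  intro v _
  simp [Pool.Agent.Helper17K9.WP.flip]

theorem L3 (hw : WInv N Y w) (f : ℝ → ℝ → ℝ → ℝ → ℝ) :
    L Y w f = L Y w (fun a b c d => f a b c (-d)) := by
  unfold L
  rw [sum_flip hw (show (3 : Fin 8) ≠ 7 by decide)]
  apply Finset.sum_congr rfl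
  intro v _
  simp [Pool.Agent.Helper17K9.WP.flip]

theorem L_add (f g : ℝ → ℝ → ℝ → ℝ → ℝ) :
    L Y w (fun a b c d => f a b c d + g a b c d) = L Y w f + L Y w g := by
  unfold L
  rw [← Finset.sum_add_distrib]
  apply Finset.sum_congr rfl
  intro v _
  ring

theorem avg (hw : WInv N Y w) (f : ℝ → ℝ → ℝ → ℝ → ℝ) :
    8 * L Y w f = L Y w (fun a b c d => f a b c d + f a b c (-d) + (f a b (-c) d + f a b (-c) (-d)) +
      (f a (-b) c d + f a (-b) c (-d) + (f a (-b) (-c) d + f a (-b) (-c) (-d)))) := by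
  have h3 : ∀ g : ℝ → ℝ → ℝ → ℝ → ℝ, L Y w (fun a b c d => g a b c d + g a b c (-d)) =
      2 * L Y w g := by
    intro g
    rw [L_add g (fun a b c d => g a b c (-d)), ← L3 hw g]
    ring
  have h2 : ∀ g : ℝ → ℝ → ℝ → ℝ → ℝ, L Y w (fun a b c d => g a b c d + g a b (-c) d) =
      2 * L Y w g := by
    intro g
    rw [L_add g (fun a b c d => g a b (-c) d), ← L2 hw g]
    ring
  have h1 : ∀ g : ℝ → ℝ → ℝ → ℝ → ℝ, L Y w (fun a b c d => g a b c d + g a (-b) c d) =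
      2 * L Y w g := by
    intro g
    rw [L_add g (fun a b c d => g a (-b) c d), ← L1 hw g]
    ring
  rw [h1 (fun a b c d => f a b c d + f a b c (-d) + (f a b (-c) d + f a b (-c) (-d))),
    h2 (fun a b c d => f a b c d + f a b c (-d)), h3 f]
  ring

/-- symmetry of the monomial sums in the first four exponents -/
structure Sym (Y : Finset (Fin 8 → ℤ)) (w : (Fin 8 → ℤ) → ℝ) : Prop where
  s01 : ∀ a b c d : ℕ, TT Y w ![a, b, c, d, 0, 0, 0, 0] = TT Y w ![b, a, c, d, 0, 0, 0, 0]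
  s12 : ∀ a b c d : ℕ, TT Y w ![a, b, c, d, 0, 0, 0, 0] = TT Y w ![a, c, b, d, 0, 0, 0, 0]
  s23 : ∀ a b c d : ℕ, TT Y w ![a, b, c, d, 0, 0, 0, 0] = TT Y w ![a, b, d, c, 0, 0, 0, 0]

theorem sym_of (hT : ∀ (β : Fin 8 → ℕ) (π : Equiv.Perm (Fin 8)),
    TT Y w (fun i => β (π i)) = TT Y w β) : Sym Y w := by
  constructor
  · intro a b c d
    rw [← hT _ (Equiv.swap 0 1)]
    congr 1
    funext i
    fin_cases i <;> rfl
  · intro a b c d
    rw [← hT _ (Equiv.swap 1 2)]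
    congr 1
    funext i
    fin_cases i <;> rfl
  · intro a b c d
    rw [← hT _ (Equiv.swap 2 3)]
    congr 1
    funext i
    fin_cases i <;> rfl

end Pool.Agent.Helper86K9.WP
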